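import Pool.Agent.P8H64.GP.Stm2

/-!
# Project GP, part BIG: large moments of the Gaussian law
-/

set_option autoImplicit false
set_option linter.all false

namespace Pool.Agent.P8H53.GPI

open MeasureTheory ProbabilityTheory
open Pool.Agent.P8H64.GP

theorem int_exp_sq : Integrable (fun x : ℝ => Real.exp (x ^ 2 / 4)) (gaussianReal 0 1) := by
  rw [gaussianReal_of_var_ne_zero 0 (by norm_num : (1 : NNReal) ≠ 0),
    integrable_withDensity_iff (measurable_gaussianPDF 0 1) (Filter.Eventually.of_forall fun x => gaussianPDF_lt_top)]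
  have h1 : Integrable (fun x : ℝ => (Real.sqrt (2 * Real.pi * ((1 : NNReal) : ℝ)))⁻¹ * Real.exp (-(1 / 4) * x ^ 2)) :=
    (integrable_exp_neg_mul_sq (by norm_num : (0 : ℝ) < 1 / 4)).const_mul _
  refine h1.congr (Filter.Eventually.of_forall fun x => ?_)
  show _ = Real.exp (x ^ 2 / 4) * (gaussianPDF 0 1 x).toReal
  rw [toReal_gaussianPDF, gaussianPDFReal]
  have h2 : Real.exp (x ^ 2 / 4) * Real.exp (-(x - 0) ^ 2 / (2 * ((1 : NNReal) : ℝ))) = Real.exp (-(1 / 4) * x ^ 2) := by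
    rw [← Real.exp_add]
    congr 1
    push_cast
    ring
  calc (Real.sqrt (2 * Real.pi * ((1 : NNReal) : ℝ)))⁻¹ * Real.exp (-(1 / 4) * x ^ 2)
      = (Real.sqrt (2 * Real.pi * ((1 : NNReal) : ℝ)))⁻¹ *
        (Real.exp (x ^ 2 / 4) * Real.exp (-(x - 0) ^ 2 / (2 * ((1 : NNReal) : ℝ)))) := by rw [h2]
    _ = _ := by ring

theorem pt {τ : ℝ} (hτ : 1 ≤ τ) (x : ℝ) : |x| ^ (2 * τ) ≤ (4 * τ) ^ τ * Real.exp (x ^ 2 / 4) := by
  have hτ0 : 0 < τ := by linarith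
  have h1 : |x| ^ (2 * τ) = (x ^ 2) ^ τ := by
    rw [Real.rpow_mul (abs_nonneg x), Real.rpow_two, sq_abs]
  have h2 : x ^ 2 = 4 * τ * (x ^ 2 / (4 * τ)) := by
    field_simp
  have hy : 0 ≤ x ^ 2 / (4 * τ) := by positivity
  have h3 : (x ^ 2) ^ τ = (4 * τ) ^ τ * (x ^ 2 / (4 * τ)) ^ τ := by
    rw [← Real.mul_rpow (by positivity) hy, ← h2]
  have h4 : x ^ 2 / (4 * τ) ≤ Real.exp (x ^ 2 / (4 * τ)) := by
    have := Real.add_one_le_exp (x ^ 2 / (4 * τ))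
    linarith
  have h5 : (x ^ 2 / (4 * τ)) ^ τ ≤ Real.exp (x ^ 2 / 4) := by
    calc (x ^ 2 / (4 * τ)) ^ τ ≤ (Real.exp (x ^ 2 / (4 * τ))) ^ τ := Real.rpow_le_rpow hy h4 hτ0.le
      _ = Real.exp (x ^ 2 / (4 * τ) * τ) := (Real.exp_mul _ _).symm
      _ = Real.exp (x ^ 2 / 4) := by
          congr 1
          field_simp
  rw [h1, h3]
  exact mul_le_mul_of_nonneg_left h5 (by positivity)

theorem big : S_BIG := by
  obtain ⟨c, hc⟩ : ∃ c : ℝ, c = ∫ x, Real.exp (x ^ 2 / 4) ∂(gaussianReal 0 1) := ⟨_, rfl⟩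
  obtain ⟨c', hc'⟩ : ∃ c' : ℝ, c' = max c 1 := ⟨_, rfl⟩
  have hc1 : 1 ≤ c' := by rw [hc']; exact le_max_right _ _
  have hcc : c ≤ c' := by rw [hc']; exact le_max_left _ _
  refine ⟨4 * c', by linarith, fun τ hτ => ?_⟩
  have hτ0 : 0 < τ := by linarith
  have h1 : ∫ x, |x| ^ (2 * τ) ∂(gaussianReal 0 1) ≤
      ∫ x, (4 * τ) ^ τ * Real.exp (x ^ 2 / 4) ∂(gaussianReal 0 1) :=
    integral_mono_of_nonneg (Filter.Eventually.of_forall fun x => Real.rpow_nonneg (abs_nonneg x) _)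
      (int_exp_sq.const_mul _) (Filter.Eventually.of_forall fun x => pt hτ x)
  rw [integral_const_mul, ← hc] at h1
  have h2 : c ≤ c' ^ τ := by
    calc c ≤ c' := hcc
      _ = c' ^ (1 : ℝ) := (Real.rpow_one _).symm
      _ ≤ c' ^ τ := Real.rpow_le_rpow_of_exponent_le hc1 hτ
  calc ∫ x, |x| ^ (2 * τ) ∂(gaussianReal 0 1) ≤ (4 * τ) ^ τ * c := h1
    _ ≤ (4 * τ) ^ τ * c' ^ τ := mul_le_mul_of_nonneg_left h2 (by positivity)
    _ = (4 * τ * c') ^ τ := (Real.mul_rpow (by positivity) (by linarith)).symm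
    _ = (4 * c' * τ) ^ τ := by
        congr 1
        ring

end Pool.Agent.P8H53.GPI
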